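import Pool.Agent.Y871.LW.StmC

/-!
# LW-LT0: the lower tail of the truncated singular series (job 8452)

For a polynomial `F` of degree at least one, the product of `(p - rho(p)) / (p - 1)` over the
primes `p ≤ (log N)^E` for `F + k` is bounded from below for all but few `|k| ≤ N` without local
obstruction.  The proof is a second moment computation over `k`.
-/

set_option autoImplicit false

open Finset

namespace Pool.Agent.Y438.LW

open Pool.Agent.Y871.LW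

/-- at most `deg F` residues, once `p` is larger than the leading coefficient -/
theorem rho_le (F : Polynomial ℤ) (hd : 1 ≤ F.natDegree) (k : ℤ) (p : ℕ) (hp : p.Prime)
    (hlc : F.leadingCoeff.natAbs < p) : rhoC F k p ≤ F.natDegree := by
  have : Fact p.Prime := ⟨hp⟩
  set g : Polynomial (ZMod p) := (F + Polynomial.C k).map (Int.castRingHom (ZMod p)) with hg
  have hcoeff : g.coeff F.natDegree = (F.leadingCoeff : ZMod p) := by
    rw [hg, Polynomial.coeff_map, Polynomial.coeff_add, Polynomial.coeff_C, if_neg (by omega),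
      add_zero]
    rfl
  have hF0 : F ≠ 0 := by
    rintro rfl
    simp at hd
  have hne : (F.leadingCoeff : ZMod p) ≠ 0 := by
    intro h
    rw [ZMod.intCast_zmod_eq_zero_iff_dvd] at h
    have h2 := Int.natAbs_dvd_natAbs.2 h
    rw [Int.natAbs_natCast] at h2
    have h3 := Nat.le_of_dvd (Int.natAbs_pos.2 (Polynomial.leadingCoeff_ne_zero.2 hF0)) h2
    omega
  have hg0 : g ≠ 0 := by
    intro h
    rw [h, Polynomial.coeff_zero] at hcoeff
    exact hne hcoeff.symm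
  have hdeg : g.natDegree ≤ F.natDegree := by
    calc g.natDegree ≤ (F + Polynomial.C k).natDegree := Polynomial.natDegree_map_le
      _ = F.natDegree := Polynomial.natDegree_add_C
  have hcard : rhoC F k p ≤ g.roots.toFinset.card := by
    unfold rhoC
    refine Finset.card_le_card_of_injOn (fun a : ℕ => (a : ZMod p)) ?_ ?_
    · intro a ha
      rw [Finset.mem_coe, Finset.mem_filter] at ha
      rw [Finset.mem_coe, Multiset.mem_toFinset, Polynomial.mem_roots hg0, Polynomial.IsRoot, hg,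
        Polynomial.eval_natCast_map, Polynomial.eval_add, Polynomial.eval_C]
      exact (ZMod.intCast_zmod_eq_zero_iff_dvd _ _).2 ha.2
    · intro a ha b hb hab
      rw [Finset.mem_coe, Finset.mem_filter, Finset.mem_range] at ha hb
      have h := (ZMod.natCast_eq_natCast_iff' a b p).1 hab
      rwa [Nat.mod_eq_of_lt ha.1, Nat.mod_eq_of_lt hb.1] at h
  exact hcard.trans ((Multiset.toFinset_card_le _).trans ((Polynomial.card_roots' g).trans hdeg))

/-- the count of one residue class in the symmetric interval, both bounds -/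
theorem count_bounds (N m : ℕ) (hm : 0 < m) (v : ℤ) :
    (2 * N + 1 : ℝ) / m - 1 ≤
        (((Icc (-(N : ℤ)) N).filter (fun k => (m : ℤ) ∣ v + k)).card : ℝ) ∧
    (((Icc (-(N : ℤ)) N).filter (fun k => (m : ℤ) ∣ v + k)).card : ℝ) ≤
      (2 * N + 1 : ℝ) / m + 1 := by
  have hset : (Icc (-(N : ℤ)) N).filter (fun k => (m : ℤ) ∣ v + k) =
      (Ioc (-(N : ℤ) - 1) N).filter (fun k => k ≡ -v [ZMOD (m : ℤ)]) := by
    ext k
    rw [Finset.mem_filter, Finset.mem_filter, Finset.mem_Icc, Finset.mem_Ioc]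
    have h1 : ((m : ℤ) ∣ v + k) ↔ k ≡ -v [ZMOD (m : ℤ)] := by
      rw [Int.modEq_iff_dvd]
      constructor
      · intro h
        have : -v - k = -(v + k) := by ring
        rw [this]
        exact (dvd_neg).2 h
      · intro h
        have : v + k = -(-v - k) := by ring
        rw [this]
        exact (dvd_neg).2 h
    rw [h1]
    constructor
    · rintro ⟨⟨h2, h3⟩, h4⟩
      exact ⟨⟨by omega, h3⟩, h4⟩
    · rintro ⟨⟨h2, h3⟩, h4⟩
      exact ⟨⟨by omega, h3⟩, h4⟩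
  have hm' : (0 : ℤ) < (m : ℤ) := by exact_mod_cast hm
  have hcard := Int.Ioc_filter_modEq_card (-(N : ℤ) - 1) (N : ℤ) hm' (-v)
  rw [hset]
  set c : ℕ := ((Ioc (-(N : ℤ) - 1) N).filter (fun k => k ≡ -v [ZMOD (m : ℤ)])).card with hc
  set x : ℚ := (((N : ℤ) : ℚ) - ((-v : ℤ) : ℚ)) / ((m : ℤ) : ℚ) with hx
  set y : ℚ := (((-(N : ℤ) - 1 : ℤ) : ℚ) - ((-v : ℤ) : ℚ)) / ((m : ℤ) : ℚ) with hy
  have hmq : (0 : ℚ) < (m : ℚ) := by exact_mod_cast hm
  have hxy : x - y = (2 * N + 1 : ℚ) / m := by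
    rw [hx, hy, ← sub_div]
    push_cast
    congr 1
    ring
  have h1 := Int.floor_le x
  have h2 := Int.lt_floor_add_one x
  have h3 := Int.floor_le y
  have h4 := Int.lt_floor_add_one y
  have hpos : (0 : ℚ) ≤ (2 * N + 1 : ℚ) / m := by positivity
  have hcq : ((c : ℤ) : ℚ) = ((max (⌊x⌋ - ⌊y⌋) 0 : ℤ) : ℚ) := by
    rw [hcard]
  have hl : (2 * N + 1 : ℚ) / m - 1 ≤ (c : ℚ) := by
    have h5 : ((⌊x⌋ - ⌊y⌋ : ℤ) : ℚ) ≤ ((max (⌊x⌋ - ⌊y⌋) 0 : ℤ) : ℚ) := by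
      exact_mod_cast le_max_left _ _
    have h6 : (c : ℚ) = ((c : ℤ) : ℚ) := by push_cast; rfl
    rw [h6, hcq]
    push_cast at h5 ⊢
    linarith
  have hu : (c : ℚ) ≤ (2 * N + 1 : ℚ) / m + 1 := by
    have h6 : (c : ℚ) = ((c : ℤ) : ℚ) := by push_cast; rfl
    rw [h6, hcq]
    rcases le_total (⌊x⌋ - ⌊y⌋) 0 with h | h
    · rw [max_eq_right h]
      push_cast
      linarith
    · rw [max_eq_left h]
      push_cast
      linarith
  constructor
  · have := (Rat.cast_le (K := ℝ)).2 hl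
    push_cast at this
    exact this
  · have := (Rat.cast_le (K := ℝ)).2 hu
    push_cast at this
    exact this

/-- the sum over the shifts of the local count, from below -/
theorem sum_rho_ge (F : Polynomial ℤ) (N p : ℕ) (hp : 0 < p) :
    (2 * N + 1 : ℝ) - p ≤ ∑ k ∈ Icc (-(N : ℤ)) N, (rhoC F k p : ℝ) := by
  have h1 : ∑ k ∈ Icc (-(N : ℤ)) N, (rhoC F k p : ℝ) =
      ∑ a ∈ range p,
        (((Icc (-(N : ℤ)) N).filter (fun k => (p : ℤ) ∣ F.eval (a : ℤ) + k)).card : ℝ) := by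
    simp only [rhoC, Finset.card_filter, Nat.cast_sum]
    rw [Finset.sum_comm]
  have hp0 : (p : ℝ) ≠ 0 := by
    have : (0 : ℝ) < (p : ℝ) := by exact_mod_cast hp
    exact this.ne'
  rw [h1]
  calc (2 * N + 1 : ℝ) - p = ∑ a ∈ range p, ((2 * N + 1 : ℝ) / p - 1) := by
        rw [Finset.sum_const, Finset.card_range, nsmul_eq_mul]
        field_simp
    _ ≤ _ := Finset.sum_le_sum (fun a _ => (count_bounds N p hp _).1)

/-- the mixed sum over the shifts, from above -/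
theorem sum_rho_mul_le (F : Polynomial ℤ) (N p q : ℕ) (hp : p.Prime) (hq : q.Prime)
    (hpq : p ≠ q) :
    ∑ k ∈ Icc (-(N : ℤ)) N, (rhoC F k p : ℝ) * (rhoC F k q : ℝ) ≤
      (2 * N + 1 : ℝ) + p * q := by
  have h1 : ∑ k ∈ Icc (-(N : ℤ)) N, (rhoC F k p : ℝ) * (rhoC F k q : ℝ) =
      ∑ a ∈ range p, ∑ b ∈ range q,
        (((Icc (-(N : ℤ)) N).filter (fun k => (p : ℤ) ∣ F.eval (a : ℤ) + k ∧
          (q : ℤ) ∣ F.eval (b : ℤ) + k)).card : ℝ) := by
    have h2 : ∀ k ∈ Icc (-(N : ℤ)) N, (rhoC F k p : ℝ) * (rhoC F k q : ℝ) =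
        ∑ a ∈ range p, ∑ b ∈ range q,
          (if ((p : ℤ) ∣ F.eval (a : ℤ) + k ∧ (q : ℤ) ∣ F.eval (b : ℤ) + k) then (1 : ℝ)
            else 0) := by
      intro k _
      simp only [rhoC, Finset.card_filter, Nat.cast_sum]
      rw [Finset.sum_mul_sum]
      refine Finset.sum_congr rfl (fun a _ => Finset.sum_congr rfl (fun b _ => ?_))
      by_cases ha : (p : ℤ) ∣ F.eval (a : ℤ) + k <;> by_cases hb : (q : ℤ) ∣ F.eval (b : ℤ) + k <;>
        simp [ha, hb]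
    rw [Finset.sum_congr rfl h2, Finset.sum_comm]
    refine Finset.sum_congr rfl (fun a _ => ?_)
    rw [Finset.sum_comm]
    refine Finset.sum_congr rfl (fun b _ => ?_)
    rw [Finset.card_filter]
    push_cast
    rfl
  have hp0 : (0 : ℝ) < (p : ℝ) := by exact_mod_cast hp.pos
  have hq0 : (0 : ℝ) < (q : ℝ) := by exact_mod_cast hq.pos
  rw [h1]
  have h3 : ∀ a ∈ range p, ∀ b ∈ range q,
      (((Icc (-(N : ℤ)) N).filter (fun k => (p : ℤ) ∣ F.eval (a : ℤ) + k ∧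
          (q : ℤ) ∣ F.eval (b : ℤ) + k)).card : ℝ) ≤ (2 * N + 1 : ℝ) / ((p * q : ℕ) : ℝ) + 1 := by
    intro a _ b _
    rcases Finset.eq_empty_or_nonempty ((Icc (-(N : ℤ)) N).filter
      (fun k => (p : ℤ) ∣ F.eval (a : ℤ) + k ∧ (q : ℤ) ∣ F.eval (b : ℤ) + k)) with he | he
    · rw [he, Finset.card_empty, Nat.cast_zero]
      positivity
    · obtain ⟨v, hv⟩ := he
      rw [Finset.mem_filter] at hv
      have hsub : (Icc (-(N : ℤ)) N).filter (fun k => (p : ℤ) ∣ F.eval (a : ℤ) + k ∧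
          (q : ℤ) ∣ F.eval (b : ℤ) + k) ⊆
          (Icc (-(N : ℤ)) N).filter (fun k => ((p * q : ℕ) : ℤ) ∣ -v + k) := by
        intro k hk
        rw [Finset.mem_filter] at hk ⊢
        refine ⟨hk.1, ?_⟩
        have hcop : IsCoprime (p : ℤ) (q : ℤ) :=
          Nat.isCoprime_iff_coprime.2 ((Nat.coprime_primes hp hq).2 hpq)
        push_cast
        refine hcop.mul_dvd ?_ ?_
        · have h := dvd_sub hk.2.1 hv.2.1
          have h' : F.eval (a : ℤ) + k - (F.eval (a : ℤ) + v) = -v + k := by ring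
          rwa [h'] at h
        · have h := dvd_sub hk.2.2 hv.2.2
          have h' : F.eval (b : ℤ) + k - (F.eval (b : ℤ) + v) = -v + k := by ring
          rwa [h'] at h
      have hc : (((Icc (-(N : ℤ)) N).filter (fun k => (p : ℤ) ∣ F.eval (a : ℤ) + k ∧
          (q : ℤ) ∣ F.eval (b : ℤ) + k)).card : ℝ) ≤
          (((Icc (-(N : ℤ)) N).filter (fun k => ((p * q : ℕ) : ℤ) ∣ -v + k)).card : ℝ) := by
        exact_mod_cast Finset.card_le_card hsub
      exact hc.trans (count_bounds N (p * q) (Nat.mul_pos hp.pos hq.pos) (-v)).2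
  calc ∑ a ∈ range p, ∑ b ∈ range q,
        (((Icc (-(N : ℤ)) N).filter (fun k => (p : ℤ) ∣ F.eval (a : ℤ) + k ∧
          (q : ℤ) ∣ F.eval (b : ℤ) + k)).card : ℝ)
      ≤ ∑ a ∈ range p, ∑ b ∈ range q, ((2 * N + 1 : ℝ) / ((p * q : ℕ) : ℝ) + 1) :=
        Finset.sum_le_sum (fun a ha => Finset.sum_le_sum (fun b hb => h3 a ha b hb))
    _ = (2 * N + 1 : ℝ) + p * q := by
        rw [Finset.sum_const, Finset.sum_const, Finset.card_range, Finset.card_range,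
          nsmul_eq_mul, nsmul_eq_mul]
        push_cast
        field_simp

/-- the off-diagonal covariances are small -/
theorem cov_le (F : Polynomial ℤ) (N p q : ℕ) (hp : p.Prime) (hq : q.Prime) (hpq : p ≠ q) :
    ∑ k ∈ Icc (-(N : ℤ)) N, ((rhoC F k p : ℝ) - 1) * ((rhoC F k q : ℝ) - 1) ≤
      3 * ((p : ℝ) * q) := by
  have h1 := sum_rho_mul_le F N p q hp hq hpq
  have h2 := sum_rho_ge F N p hp.pos
  have h3 := sum_rho_ge F N q hq.pos
  have h4 : ∑ k ∈ Icc (-(N : ℤ)) N, (1 : ℝ) = 2 * N + 1 := by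
    rw [Finset.sum_const, nsmul_eq_mul, mul_one, Int.card_Icc]
    have : ((N : ℤ) + 1 - -(N : ℤ)).toNat = 2 * N + 1 := by omega
    rw [this]
    push_cast
    ring
  have h5 : ∑ k ∈ Icc (-(N : ℤ)) N, ((rhoC F k p : ℝ) - 1) * ((rhoC F k q : ℝ) - 1) =
      ∑ k ∈ Icc (-(N : ℤ)) N, (rhoC F k p : ℝ) * (rhoC F k q : ℝ) -
        ∑ k ∈ Icc (-(N : ℤ)) N, (rhoC F k p : ℝ) - ∑ k ∈ Icc (-(N : ℤ)) N, (rhoC F k q : ℝ) +
        ∑ k ∈ Icc (-(N : ℤ)) N, (1 : ℝ) := by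
    rw [← Finset.sum_sub_distrib, ← Finset.sum_sub_distrib, ← Finset.sum_add_distrib]
    exact Finset.sum_congr rfl (fun k _ => by ring)
  rw [h5, h4]
  have hp1 : (1 : ℝ) ≤ (p : ℝ) := by exact_mod_cast hp.one_lt.le
  have hq1 : (1 : ℝ) ≤ (q : ℝ) := by exact_mod_cast hq.one_lt.le
  nlinarith [mul_nonneg (sub_nonneg.2 hp1) (sub_nonneg.2 hq1)]

/-- the size of `rho - 1` -/
theorem abs_rho_sub_one_le (F : Polynomial ℤ) (hd : 1 ≤ F.natDegree) (k : ℤ) (p : ℕ)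
    (hp : p.Prime) (hlc : F.leadingCoeff.natAbs < p) :
    |(rhoC F k p : ℝ) - 1| ≤ (F.natDegree : ℝ) + 1 := by
  have h1 : (rhoC F k p : ℝ) ≤ (F.natDegree : ℝ) := by exact_mod_cast rho_le F hd k p hp hlc
  have h0 : (0 : ℝ) ≤ (rhoC F k p : ℝ) := Nat.cast_nonneg _
  have h2 : (0 : ℝ) ≤ (F.natDegree : ℝ) := Nat.cast_nonneg _
  rw [abs_le]
  constructor <;> linarith

/-- the diagonal terms -/
theorem diag_le (F : Polynomial ℤ) (hd : 1 ≤ F.natDegree) (N p : ℕ)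
    (hp : p.Prime) (hlc : F.leadingCoeff.natAbs < p) :
    ∑ k ∈ Icc (-(N : ℤ)) N, ((rhoC F k p : ℝ) - 1) * ((rhoC F k p : ℝ) - 1) ≤
      (2 * N + 1) * ((F.natDegree : ℝ) + 1) ^ 2 := by
  have h4 : ∑ k ∈ Icc (-(N : ℤ)) N, ((F.natDegree : ℝ) + 1) ^ 2 =
      (2 * N + 1) * ((F.natDegree : ℝ) + 1) ^ 2 := by
    rw [Finset.sum_const, nsmul_eq_mul, Int.card_Icc]
    have : ((N : ℤ) + 1 - -(N : ℤ)).toNat = 2 * N + 1 := by omega
    rw [this]
    push_cast
    ring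
  rw [← h4]
  refine Finset.sum_le_sum (fun k _ => ?_)
  have h := abs_rho_sub_one_le F hd k p hp hlc
  have h2 : (0 : ℝ) ≤ (F.natDegree : ℝ) := Nat.cast_nonneg _
  have h3 := abs_nonneg ((rhoC F k p : ℝ) - 1)
  nlinarith [sq_abs ((rhoC F k p : ℝ) - 1)]

/-- the linear statistic -/
noncomputable def Yf (F : Polynomial ℤ) (w z : ℕ) (k : ℤ) : ℝ :=
  ∑ p ∈ (Ioc w z).filter Nat.Prime, ((rhoC F k p : ℝ) - 1) / p

/-- the sum of the inverse squares of the primes beyond `w` -/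
theorem sum_inv_sq_le (w z : ℕ) (hw : 1 ≤ w) :
    ∑ p ∈ (Ioc w z).filter Nat.Prime, ((p : ℝ) ^ 2)⁻¹ ≤ (w : ℝ)⁻¹ := by
  have h1 : ∑ p ∈ (Ioc w z).filter Nat.Prime, ((p : ℝ) ^ 2)⁻¹ ≤
      ∑ p ∈ Ioc w z, ((p : ℝ) ^ 2)⁻¹ :=
    Finset.sum_le_sum_of_subset_of_nonneg (Finset.filter_subset _ _)
      (fun i _ _ => by positivity)
  rcases le_total w z with h | h
  · have h2 := sum_Ioc_inv_sq_le_sub (α := ℝ) (k := w) (n := z) (by omega) h
    have h3 : (0 : ℝ) ≤ (z : ℝ)⁻¹ := by positivity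
    linarith
  · rw [Finset.Ioc_eq_empty (by omega), Finset.filter_empty, Finset.sum_empty]
    positivity

/-- the second moment bound -/
theorem second_moment (F : Polynomial ℤ) (hd : 1 ≤ F.natDegree) (N w z : ℕ)
    (hlc : F.leadingCoeff.natAbs ≤ w) (hw : 1 ≤ w) :
    ∑ k ∈ Icc (-(N : ℤ)) N, (Yf F w z k) ^ 2 ≤
      (2 * N + 1) * ((F.natDegree : ℝ) + 1) ^ 2 * (w : ℝ)⁻¹ + 3 * (z : ℝ) ^ 2 := by
  set P := (Ioc w z).filter Nat.Prime with hP
  set D : ℝ := (2 * N + 1) * ((F.natDegree : ℝ) + 1) ^ 2 with hD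
  have hD0 : 0 ≤ D := by positivity
  have h1 : ∑ k ∈ Icc (-(N : ℤ)) N, (Yf F w z k) ^ 2 =
      ∑ p ∈ P, ∑ q ∈ P, ((p : ℝ) * q)⁻¹ *
        ∑ k ∈ Icc (-(N : ℤ)) N, ((rhoC F k p : ℝ) - 1) * ((rhoC F k q : ℝ) - 1) := by
    have h2 : ∀ k ∈ Icc (-(N : ℤ)) N, (Yf F w z k) ^ 2 =
        ∑ p ∈ P, ∑ q ∈ P, ((p : ℝ) * q)⁻¹ *
          (((rhoC F k p : ℝ) - 1) * ((rhoC F k q : ℝ) - 1)) := by
      intro k _
      unfold Yf
      rw [sq, Finset.sum_mul_sum]
      refine Finset.sum_congr rfl (fun a _ => Finset.sum_congr rfl (fun b _ => ?_))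
      rw [mul_inv]
      ring
    rw [Finset.sum_congr rfl h2, Finset.sum_comm]
    refine Finset.sum_congr rfl (fun a _ => ?_)
    rw [Finset.sum_comm]
    refine Finset.sum_congr rfl (fun b _ => ?_)
    rw [Finset.mul_sum]
  have h3 : ∀ p ∈ P, ∀ q ∈ P, ((p : ℝ) * q)⁻¹ *
        ∑ k ∈ Icc (-(N : ℤ)) N, ((rhoC F k p : ℝ) - 1) * ((rhoC F k q : ℝ) - 1) ≤
        (if p = q then D * ((p : ℝ) ^ 2)⁻¹ else 0) + 3 := by
    intro p hp q hq
    rw [hP, Finset.mem_filter, Finset.mem_Ioc] at hp hq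
    have hp0 : (0 : ℝ) < (p : ℝ) := by exact_mod_cast hp.2.pos
    have hq0 : (0 : ℝ) < (q : ℝ) := by exact_mod_cast hq.2.pos
    have hpq0 : (0 : ℝ) ≤ ((p : ℝ) * q)⁻¹ := by positivity
    by_cases h : p = q
    · subst h
      rw [if_pos rfl]
      have h4 := diag_le F hd N p hp.2 (by omega)
      have h5 := mul_le_mul_of_nonneg_left h4 hpq0
      have h6 : ((p : ℝ) * p)⁻¹ * ((2 * N + 1) * ((F.natDegree : ℝ) + 1) ^ 2) =
          D * ((p : ℝ) ^ 2)⁻¹ := by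
        rw [hD, sq (p : ℝ)]
        ring
      rw [h6] at h5
      linarith
    · rw [if_neg h]
      have h4 := cov_le F N p q hp.2 hq.2 h
      have h5 := mul_le_mul_of_nonneg_left h4 hpq0
      have h6 : ((p : ℝ) * q)⁻¹ * (3 * ((p : ℝ) * q)) = 3 := by
        field_simp
      rw [h6] at h5
      linarith
  have hcard : (P.card : ℝ) ≤ (z : ℝ) := by
    have h5 : P.card ≤ z := by
      calc P.card ≤ (Ioc w z).card := Finset.card_filter_le _ _
        _ = z - w := Nat.card_Ioc w z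
        _ ≤ z := Nat.sub_le _ _
    exact_mod_cast h5
  have hcard0 : (0 : ℝ) ≤ (P.card : ℝ) := Nat.cast_nonneg _
  rw [h1]
  calc ∑ p ∈ P, ∑ q ∈ P, ((p : ℝ) * q)⁻¹ *
        ∑ k ∈ Icc (-(N : ℤ)) N, ((rhoC F k p : ℝ) - 1) * ((rhoC F k q : ℝ) - 1)
      ≤ ∑ p ∈ P, ∑ q ∈ P, ((if p = q then D * ((p : ℝ) ^ 2)⁻¹ else 0) + 3) :=
        Finset.sum_le_sum (fun p hp => Finset.sum_le_sum (fun q hq => h3 p hp q hq))
    _ = D * ∑ p ∈ P, ((p : ℝ) ^ 2)⁻¹ + 3 * (P.card : ℝ) ^ 2 := by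
        simp only [Finset.sum_add_distrib, Finset.sum_const, nsmul_eq_mul, Finset.sum_ite_eq]
        rw [Finset.mul_sum]
        congr 1
        · refine Finset.sum_congr rfl (fun p hp => ?_)
          rw [if_pos hp]
        · ring
    _ ≤ D * (w : ℝ)⁻¹ + 3 * (z : ℝ) ^ 2 := by
        have h6 := mul_le_mul_of_nonneg_left (sum_inv_sq_le w z hw) hD0
        have h7 : (P.card : ℝ) ^ 2 ≤ (z : ℝ) ^ 2 := by
          exact pow_le_pow_left₀ hcard0 hcard 2
        linarith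

/-- the elementary lower bound for `1 - x` -/
theorem one_sub_ge_exp (x : ℝ) (hx : x ≤ 1 / 2) : Real.exp (-x - 2 * x ^ 2) ≤ 1 - x := by
  have h1 : 0 < 1 - x := by linarith
  have h2 := Real.one_sub_inv_le_log_of_pos h1
  have h3 : -x - 2 * x ^ 2 ≤ Real.log (1 - x) := by
    refine le_trans ?_ h2
    have h4 : 1 - (1 - x)⁻¹ = (-x) / (1 - x) := by
      field_simp
      ring
    rw [h4, le_div_iff₀ h1]
    nlinarith [sq_nonneg x]
  calc Real.exp (-x - 2 * x ^ 2) ≤ Real.exp (Real.log (1 - x)) := Real.exp_le_exp.2 h3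
    _ = 1 - x := Real.exp_log h1

/-- one factor at a large prime -/
theorem factor_ge (F : Polynomial ℤ) (hd : 1 ≤ F.natDegree) (k : ℤ) (p w : ℕ)
    (hp : p.Prime) (hwp : w < p) (hlc : F.leadingCoeff.natAbs ≤ w)
    (hw : 2 * (F.natDegree + 1) ≤ w) :
    Real.exp (-(((rhoC F k p : ℝ) - 1) / p) -
      (2 * ((F.natDegree : ℝ) + 1) + 8 * ((F.natDegree : ℝ) + 1) ^ 2) * ((p : ℝ) ^ 2)⁻¹) ≤
      ((p : ℝ) - rhoC F k p) / ((p : ℝ) - 1) := by
  set d : ℝ := (F.natDegree : ℝ) with hdd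
  have hd1 : (1 : ℝ) ≤ d := by
    rw [hdd]
    exact_mod_cast hd
  set r : ℝ := (rhoC F k p : ℝ) - 1 with hr
  have habs : |r| ≤ d + 1 := abs_rho_sub_one_le F hd k p hp (by omega)
  have hab := abs_le.1 habs
  have hrd : r ≤ d - 1 := by
    have h1 : (rhoC F k p : ℝ) ≤ d := by
      rw [hdd]
      exact_mod_cast rho_le F hd k p hp (by omega)
    linarith
  have hpw : 2 * (d + 1) ≤ (p : ℝ) := by
    have h1 : 2 * (F.natDegree + 1) ≤ p := by omega
    have h2 : ((2 * (F.natDegree + 1) : ℕ) : ℝ) ≤ (p : ℝ) := by exact_mod_cast h1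
    push_cast at h2
    exact h2
  have hp0 : (0 : ℝ) < (p : ℝ) := by linarith
  have hp1 : (0 : ℝ) < (p : ℝ) - 1 := by linarith
  set x : ℝ := r / ((p : ℝ) - 1) with hx
  have hx2 : x ≤ 1 / 2 := by
    rw [hx, div_le_iff₀ hp1]
    linarith
  have heq : ((p : ℝ) - rhoC F k p) / ((p : ℝ) - 1) = 1 - x := by
    rw [hx, hr]
    field_simp
    ring
  rw [heq]
  refine le_trans (Real.exp_le_exp.2 ?_) (one_sub_ge_exp x hx2)
  have hx3 : x = r / p + r / (p * ((p : ℝ) - 1)) := by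
    rw [hx]
    field_simp
    ring
  have hp2 : (0 : ℝ) < (p : ℝ) ^ 2 := by positivity
  have h1 : r / (p * ((p : ℝ) - 1)) ≤ 2 * (d + 1) * ((p : ℝ) ^ 2)⁻¹ := by
    rw [← div_eq_mul_inv, div_le_div_iff₀ (by positivity) hp2]
    have h2 : r * (p : ℝ) ^ 2 ≤ (d + 1) * (p : ℝ) ^ 2 :=
      mul_le_mul_of_nonneg_right hab.2 hp2.le
    have h3 : (p : ℝ) ^ 2 ≤ 2 * (p * ((p : ℝ) - 1)) := by nlinarith
    have h4 : (d + 1) * (p : ℝ) ^ 2 ≤ (d + 1) * (2 * (p * ((p : ℝ) - 1))) :=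
      mul_le_mul_of_nonneg_left h3 (by linarith)
    nlinarith
  have h5 : x ^ 2 ≤ 4 * (d + 1) ^ 2 * ((p : ℝ) ^ 2)⁻¹ := by
    rw [hx, div_pow, ← div_eq_mul_inv, div_le_div_iff₀ (by positivity) hp2]
    have h6 : r ^ 2 ≤ (d + 1) ^ 2 := by
      rw [← sq_abs r]
      exact pow_le_pow_left₀ (abs_nonneg r) habs 2
    have h7 : (p : ℝ) ^ 2 ≤ 4 * ((p : ℝ) - 1) ^ 2 := by nlinarith
    calc r ^ 2 * (p : ℝ) ^ 2 ≤ (d + 1) ^ 2 * (4 * ((p : ℝ) - 1) ^ 2) :=
          mul_le_mul h6 h7 hp2.le (by positivity)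
      _ = 4 * (d + 1) ^ 2 * ((p : ℝ) - 1) ^ 2 := by ring
  have h8 : (2 * (d + 1) + 8 * (d + 1) ^ 2) * ((p : ℝ) ^ 2)⁻¹ =
      2 * (d + 1) * ((p : ℝ) ^ 2)⁻¹ + 2 * (4 * (d + 1) ^ 2 * ((p : ℝ) ^ 2)⁻¹) := by ring
  rw [h8]
  linarith

/-- the pointwise lower bound for the truncated series -/
theorem SC_ge (F : Polynomial ℤ) (hd : 1 ≤ F.natDegree) (k : ℤ) (w z : ℕ)
    (hlc : F.leadingCoeff.natAbs ≤ w) (hw : 2 * (F.natDegree + 1) ≤ w)
    (hloc : ∀ p : ℕ, p.Prime → p ≤ z → rhoC F k p < p) :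
    ((w : ℝ)⁻¹) ^ (w + 1) * Real.exp (-(Yf F w z k) -
      (2 * ((F.natDegree : ℝ) + 1) + 8 * ((F.natDegree : ℝ) + 1) ^ 2)) ≤ SC F k z := by
  set C : ℝ := 2 * ((F.natDegree : ℝ) + 1) + 8 * ((F.natDegree : ℝ) + 1) ^ 2 with hC
  have hC0 : 0 ≤ C := by positivity
  have hw1 : 1 ≤ w := by omega
  have hwR : (1 : ℝ) ≤ (w : ℝ) := by exact_mod_cast hw1
  have hsplit : (range (z + 1)).filter Nat.Prime =
      ((range (z + 1)).filter Nat.Prime).filter (fun p => p ≤ w) ∪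
        (Ioc w z).filter Nat.Prime := by
    ext p
    simp only [Finset.mem_union, Finset.mem_filter, Finset.mem_range, Finset.mem_Ioc]
    constructor
    · rintro ⟨h1, h2⟩
      by_cases h : p ≤ w
      · exact Or.inl ⟨⟨h1, h2⟩, h⟩
      · exact Or.inr ⟨⟨by omega, by omega⟩, h2⟩
    · rintro (⟨⟨h1, h2⟩, h3⟩ | ⟨⟨h1, h2⟩, h3⟩)
      · exact ⟨h1, h2⟩
      · exact ⟨by omega, h3⟩
  have hdisj : Disjoint (((range (z + 1)).filter Nat.Prime).filter (fun p => p ≤ w))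
      ((Ioc w z).filter Nat.Prime) := by
    rw [Finset.disjoint_left]
    intro p h1 h2
    rw [Finset.mem_filter] at h1 h2
    rw [Finset.mem_Ioc] at h2
    omega
  unfold SC
  rw [hsplit, Finset.prod_union hdisj]
  have hA : ((w : ℝ)⁻¹) ^ (w + 1) ≤
      ∏ p ∈ ((range (z + 1)).filter Nat.Prime).filter (fun p => p ≤ w),
        ((p : ℝ) - rhoC F k p) / ((p : ℝ) - 1) := by
    have hcard : (((range (z + 1)).filter Nat.Prime).filter (fun p => p ≤ w)).card ≤ w + 1 := by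
      have hsub : ((range (z + 1)).filter Nat.Prime).filter (fun p => p ≤ w) ⊆
          range (w + 1) := by
        intro p hp
        rw [Finset.mem_filter] at hp
        rw [Finset.mem_range]
        omega
      calc _ ≤ (range (w + 1)).card := Finset.card_le_card hsub
        _ = w + 1 := Finset.card_range _
    have h1 : ((w : ℝ)⁻¹) ^ (w + 1) ≤
        ((w : ℝ)⁻¹) ^ (((range (z + 1)).filter Nat.Prime).filter (fun p => p ≤ w)).card :=
      pow_le_pow_of_le_one (by positivity) (inv_le_one_of_one_le₀ hwR) hcard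
    refine h1.trans ?_
    rw [← Finset.prod_const]
    refine Finset.prod_le_prod (fun p _ => by positivity) (fun p hp => ?_)
    rw [Finset.mem_filter, Finset.mem_filter, Finset.mem_range] at hp
    have hpp := hp.1.2
    have h2 := hloc p hpp (by omega)
    have h3 : (rhoC F k p : ℝ) + 1 ≤ (p : ℝ) := by exact_mod_cast h2
    have h4 : (1 : ℝ) < (p : ℝ) := by exact_mod_cast hpp.one_lt
    have h5 : (p : ℝ) ≤ (w : ℝ) := by exact_mod_cast hp.2
    have h6 : (0 : ℝ) < (p : ℝ) - 1 := by linarith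
    rw [inv_eq_one_div, div_le_div_iff₀ (by linarith) h6]
    nlinarith
  have hB : Real.exp (-(Yf F w z k) - C) ≤
      ∏ p ∈ (Ioc w z).filter Nat.Prime, ((p : ℝ) - rhoC F k p) / ((p : ℝ) - 1) := by
    have h1 : ∏ p ∈ (Ioc w z).filter Nat.Prime,
        Real.exp (-(((rhoC F k p : ℝ) - 1) / p) - C * ((p : ℝ) ^ 2)⁻¹) ≤
        ∏ p ∈ (Ioc w z).filter Nat.Prime, ((p : ℝ) - rhoC F k p) / ((p : ℝ) - 1) := by
      refine Finset.prod_le_prod (fun p _ => (Real.exp_pos _).le) (fun p hp => ?_)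
      rw [Finset.mem_filter, Finset.mem_Ioc] at hp
      exact factor_ge F hd k p w hp.2 hp.1.1 hlc hw
    refine le_trans ?_ h1
    rw [← Real.exp_sum, Real.exp_le_exp, Finset.sum_sub_distrib, Finset.sum_neg_distrib,
      ← Finset.mul_sum]
    have h2 := sum_inv_sq_le w z hw1
    have h3 : (w : ℝ)⁻¹ ≤ 1 := inv_le_one_of_one_le₀ hwR
    have h4 : C * ∑ p ∈ (Ioc w z).filter Nat.Prime, ((p : ℝ) ^ 2)⁻¹ ≤ C * 1 :=
      mul_le_mul_of_nonneg_left (h2.trans h3) hC0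
    unfold Yf
    linarith
  exact mul_le_mul hA hB (Real.exp_pos _).le ((by positivity : (0:ℝ) ≤ _).trans hA)

/-- the powers of the logarithm are small compared with `N` -/
theorem eventually_log (E : ℕ) (ε : ℝ) (hε : 0 < ε) :
    ∃ N₀ : ℕ, 1 ≤ N₀ ∧ ∀ N : ℕ, N₀ ≤ N → (Real.log N ^ E) ^ 2 ≤ ε * N := by
  have h1 := (Real.isLittleO_pow_log_id_atTop (n := E * 2)).bound hε
  have h2 := tendsto_natCast_atTop_atTop (R := ℝ) |>.eventually h1
  obtain ⟨N₀, hN₀⟩ := Filter.eventually_atTop.1 h2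
  refine ⟨max N₀ 1, le_max_right _ _, fun N hN => ?_⟩
  have h3 := hN₀ N (le_trans (le_max_left _ _) hN)
  rw [id, Real.norm_of_nonneg (Nat.cast_nonneg N : (0:ℝ) ≤ (N : ℝ))] at h3
  calc (Real.log N ^ E) ^ 2 = Real.log N ^ (E * 2) := by rw [pow_mul]
    _ ≤ ‖Real.log N ^ (E * 2)‖ := Real.le_norm_self _
    _ ≤ ε * N := h3

open Classical in
/-- (LT0) the lower tail of the truncated singular series -/
theorem t_LT0 : Pool.Agent.Y871.LW.S_LT0 := by
  intro F hd η hη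
  set D : ℝ := ((F.natDegree : ℝ) + 1) ^ 2 with hD
  have hD0 : 0 < D := by positivity
  obtain ⟨w₀, hw₀⟩ := exists_nat_ge (6 * D / η)
  set w : ℕ := max w₀ (max F.leadingCoeff.natAbs (2 * (F.natDegree + 1))) with hwdef
  have hw1 : w₀ ≤ w := le_max_left _ _
  have hlc : F.leadingCoeff.natAbs ≤ w := (le_max_left _ _).trans (le_max_right _ _)
  have hw2 : 2 * (F.natDegree + 1) ≤ w := (le_max_right _ _).trans (le_max_right _ _)
  have hw3 : 1 ≤ w := by omega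
  have hwR : (0 : ℝ) < (w : ℝ) := by exact_mod_cast hw3
  set C : ℝ := 2 * ((F.natDegree : ℝ) + 1) + 8 * ((F.natDegree : ℝ) + 1) ^ 2 with hC
  refine ⟨((w : ℝ)⁻¹) ^ (w + 1) * Real.exp (-1 - C), by positivity, fun E => ?_⟩
  obtain ⟨N₀, hN₀1, hN₀⟩ := eventually_log E (η / 6) (by positivity)
  refine ⟨N₀, fun N hN => ?_⟩
  set z : ℕ := ⌊Real.log N ^ E⌋₊ with hz
  have hN1 : (1 : ℝ) ≤ (N : ℝ) := by exact_mod_cast hN₀1.trans hN
  have hlog : 0 ≤ Real.log N := Real.log_nonneg hN1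
  have hzle : (z : ℝ) ^ 2 ≤ η / 6 * N := by
    have h1 : (z : ℝ) ≤ Real.log N ^ E := Nat.floor_le (pow_nonneg hlog E)
    exact (pow_le_pow_left₀ (Nat.cast_nonneg z) h1 2).trans (hN₀ N hN)
  set B := (Icc (-(N : ℤ)) N).filter (fun k =>
    (∀ p : ℕ, p.Prime → p ≤ z → rhoC F k p < p) ∧
      SC F k z < ((w : ℝ)⁻¹) ^ (w + 1) * Real.exp (-1 - C)) with hB
  have hY : ∀ k ∈ B, (1 : ℝ) ≤ (Yf F w z k) ^ 2 := by
    intro k hk
    rw [hB, Finset.mem_filter] at hk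
    have h1 := SC_ge F hd k w z hlc hw2 hk.2.1
    have h2 := lt_of_le_of_lt h1 hk.2.2
    have h3 : (0 : ℝ) < ((w : ℝ)⁻¹) ^ (w + 1) := by positivity
    have h4 := lt_of_mul_lt_mul_left h2 h3.le
    have h5 := Real.exp_lt_exp.1 h4
    have h6 : 1 < Yf F w z k := by linarith
    nlinarith
  have h1 : (B.card : ℝ) ≤ ∑ k ∈ Icc (-(N : ℤ)) N, (Yf F w z k) ^ 2 := by
    calc (B.card : ℝ) = ∑ k ∈ B, (1 : ℝ) := by
          rw [Finset.sum_const, nsmul_eq_mul, mul_one]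
      _ ≤ ∑ k ∈ B, (Yf F w z k) ^ 2 := Finset.sum_le_sum hY
      _ ≤ _ := Finset.sum_le_sum_of_subset_of_nonneg (Finset.filter_subset _ _)
          (fun _ _ _ => sq_nonneg _)
  have h2 := second_moment F hd N w z hlc hw3
  have h3 : (2 * (N : ℝ) + 1) * D * (w : ℝ)⁻¹ ≤ η / 2 * N := by
    have h4 : 6 * D / η ≤ (w : ℝ) := hw₀.trans (by exact_mod_cast hw1)
    rw [div_le_iff₀ hη] at h4
    rw [← div_eq_mul_inv, div_le_iff₀ hwR]
    have h5 : (2 * (N : ℝ) + 1) * D ≤ (3 * N) * D :=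
      mul_le_mul_of_nonneg_right (by linarith) hD0.le
    have h6 : 6 * D * N ≤ (w : ℝ) * η * N := mul_le_mul_of_nonneg_right h4 (by linarith)
    nlinarith
  have h7 : (B.card : ℝ) ≤ η * N := by linarith
  exact h7

end Pool.Agent.Y438.LW
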